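import Pool.Agent.PFC.StmtsB2

/-!
Squad PFC, row ADJ.
-/

set_option autoImplicit false

namespace Pool.Agent.PFC.B2.H1

open Pool.Agent.PFC.B1 Pool.Agent.PFC.B2

section

variable {R Γ A k T M N : Type} [CommRing R] [Ring Γ] [Algebra R Γ] [Ring A] [Algebra R A]
  [CommRing k] [Algebra R k] [AddCommGroup T] [Module k T] [AddCommGroup M] [Module k M]
  [AddCommGroup N] [Module k N]

theorem mem_Hm {τ : Rp R A k T} {μ : Rp R A k M} {f : T →ₗ[k] M} :
    f ∈ Hm τ μ ↔ IsHom τ μ f := Iff.rfl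

/-- the adjunction -/
def psi (j : Γ →ₐ[R] A) (τ : Rp R A k T) (μ : Rp R Γ k M) :
    Hm τ (coRp j μ) →ₗ[k] Hm (τ.res j) μ where
  toFun := fun h =>
    ⟨{ toFun := fun t => (h.1 t).1 1
       map_add' := fun t t' => by
         show (h.1 (t + t')).1 1 = (h.1 t).1 1 + (h.1 t').1 1
         rw [map_add]; rfl
       map_smul' := fun r t => by
         show (h.1 (r • t)).1 1 = r • (h.1 t).1 1
         rw [map_smul]; rfl },
     fun γ t => by
       show (h.1 (τ.ρ (j γ) t)).1 1 = μ.ρ γ ((h.1 t).1 1)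
       have h1 : h.1 (τ.ρ (j γ) t) = (coRp j μ).ρ (j γ) (h.1 t) := h.2 (j γ) t
       rw [h1]
       show (h.1 t).1 (1 * j γ) = μ.ρ γ ((h.1 t).1 1)
       have h2 := (h.1 t).2.2 γ 1
       rw [mul_one] at h2
       rw [one_mul]
       exact h2⟩
  map_add' := fun h h' => rfl
  map_smul' := fun r h => rfl

theorem psi_apply (j : Γ →ₐ[R] A) (τ : Rp R A k T) (μ : Rp R Γ k M) (h : Hm τ (coRp j μ))
    (t : T) : (psi j τ μ h).1 t = (h.1 t).1 1 := rfl

theorem psi_bij (j : Γ →ₐ[R] A) (τ : Rp R A k T) (μ : Rp R Γ k M) :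
    Function.Bijective (psi j τ μ) := by
  constructor
  · intro h h' hh
    apply Subtype.ext
    apply LinearMap.ext
    intro t
    apply Subtype.ext
    funext x
    have h1 : (psi j τ μ h).1 (τ.ρ x t) = (psi j τ μ h').1 (τ.ρ x t) := by rw [hh]
    rw [psi_apply, psi_apply] at h1
    have h2 : h.1 (τ.ρ x t) = (coRp j μ).ρ x (h.1 t) := h.2 x t
    have h2' : h'.1 (τ.ρ x t) = (coRp j μ).ρ x (h'.1 t) := h'.2 x t
    rw [h2, h2'] at h1
    have h3 : (h.1 t).1 (1 * x) = (h'.1 t).1 (1 * x) := h1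
    rw [one_mul] at h3
    exact h3
  · intro f
    refine ⟨⟨{ toFun := fun t => ⟨fun x => f.1 (τ.ρ x t), fun x y => ?_, fun γ x => ?_⟩
               map_add' := ?_
               map_smul' := ?_ }, ?_⟩, ?_⟩
    · show f.1 (τ.ρ (x + y) t) = f.1 (τ.ρ x t) + f.1 (τ.ρ y t)
      rw [map_add, LinearMap.add_apply, map_add]
    · show f.1 (τ.ρ (j γ * x) t) = μ.ρ γ (f.1 (τ.ρ x t))
      rw [map_mul, Module.End.mul_apply]
      exact f.2 γ (τ.ρ x t)
    · intro t t'
      apply Subtype.ext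
      funext x
      show f.1 (τ.ρ x (t + t')) = f.1 (τ.ρ x t) + f.1 (τ.ρ x t')
      rw [map_add, map_add]
    · intro r t
      apply Subtype.ext
      funext x
      show f.1 (τ.ρ x (r • t)) = r • f.1 (τ.ρ x t)
      rw [map_smul, map_smul]
    · intro a t
      apply Subtype.ext
      funext x
      show f.1 (τ.ρ x (τ.ρ a t)) = f.1 (τ.ρ (x * a) t)
      rw [map_mul, Module.End.mul_apply]
    · apply Subtype.ext
      apply LinearMap.ext
      intro t
      show f.1 (τ.ρ 1 t) = f.1 t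
      rw [map_one]
      rfl

/-- composition with an intertwiner -/
def cmp (τ : Rp R A k T) {μ : Rp R A k M} {ν : Rp R A k N} (g : M →ₗ[k] N) (hg : IsHom μ ν g) :
    Hm τ μ →ₗ[k] Hm τ ν where
  toFun := fun h => ⟨g ∘ₗ h.1, fun a t => by
    show g (h.1 (τ.ρ a t)) = ν.ρ a (g (h.1 t))
    have h1 : h.1 (τ.ρ a t) = μ.ρ a (h.1 t) := h.2 a t
    rw [h1, hg]⟩
  map_add' := fun h h' => by
    apply Subtype.ext
    apply LinearMap.ext
    intro t
    exact map_add g (h.1 t) (h'.1 t)
  map_smul' := fun r h => by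
    apply Subtype.ext
    apply LinearMap.ext
    intro t
    exact map_smul g r (h.1 t)

theorem cmp_apply (τ : Rp R A k T) {μ : Rp R A k M} {ν : Rp R A k N} (g : M →ₗ[k] N)
    (hg : IsHom μ ν g) (h : Hm τ μ) (t : T) : (cmp τ g hg h).1 t = g (h.1 t) := rfl

end

section

variable {R A k T M N X : Type} [CommRing R] [Ring A] [Algebra R A]
  [Field k] [Algebra R k] [AddCommGroup T] [Module k T] [Module.Finite k T] [AddCommGroup M]
  [Module k M] [Module.Finite k M] [AddCommGroup N] [Module k N] [Module.Finite k N]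
  [AddCommGroup X] [Module k X]

theorem hd_add (τ : Rp R A k T) (μ : Rp R A k M) (ν : Rp R A k N) (ξ : Rp R A k X)
    (f : Hm τ ξ →ₗ[k] Hm τ μ × Hm τ ν) (hf : Function.Bijective f) :
    hd τ ξ = hd τ μ + hd τ ν := by
  have e1 := (LinearEquiv.ofBijective f hf).finrank_eq
  unfold hd
  rw [e1, Module.finrank_prod]

end

theorem adj (hpin : PinStmt) (hqex : QexStmt) (hqfi : QfiStmt) : AdjStmt := by
  intro R Γ A J k T M _ _ _ _ _ _ _ _ _ _ _ _ _ _ _ d j τ μ hμ
  obtain ⟨ι, π, s, hι, hπ, hι1, hπ1, hs1, hιi, hπs, hker⟩ := hqex R Γ A k M j μ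
  have : Module.Finite k (QQ j μ) := hqfi.2.1 R Γ A k M j μ
  -- the retraction
  obtain ⟨g, hg, hgι⟩ := (hpin.1 R A J k M M (Co j (μ.res j)) d μ μ (coRp j (μ.res j)) hμ).2 ι
    { toFun := fun f => f.1 1
      map_add' := fun f f' => rfl
      map_smul' := fun r f => rfl } LinearMap.id hι (by
        apply LinearMap.ext
        intro m
        show (ι m).1 1 = m
        rw [hι1, map_one]
        rfl) (fun a x => rfl)
  have hgι' : ∀ m, g (ι m) = m := fun m => LinearMap.congr_fun hgι m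
  have hπι : ∀ m, π (ι m) = 0 := by
    intro m
    have h1 : ι m ∈ LinearMap.ker π := by
      rw [hker]
      exact LinearMap.mem_range_self ι m
    exact h1
  have hπs' : ∀ y, π (s y) = y := fun y => LinearMap.congr_fun hπs y
  have hzero : ∀ z, g z = 0 → π z = 0 → z = 0 := by
    intro z h1 h2
    have h3 : z ∈ LinearMap.range ι := by
      rw [← hker]
      exact h2
    obtain ⟨m, rfl⟩ := h3
    rw [hgι'] at h1
    rw [h1, map_zero]
  -- the decomposition
  have hbij : Function.Bijective ((cmp τ g hg).prod (cmp τ π hπ)) := by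
    constructor
    · intro h h' hh
      have hh1 : cmp τ g hg h = cmp τ g hg h' := congrArg Prod.fst hh
      have hh2 : cmp τ π hπ h = cmp τ π hπ h' := congrArg Prod.snd hh
      apply Subtype.ext
      apply LinearMap.ext
      intro t
      rw [← sub_eq_zero]
      refine hzero _ ?_ ?_
      · rw [map_sub, ← cmp_apply τ g hg h t, ← cmp_apply τ g hg h' t, hh1, sub_self]
      · rw [map_sub, ← cmp_apply τ π hπ h t, ← cmp_apply τ π hπ h' t, hh2, sub_self]
    · rintro ⟨a, b⟩
      have hs' : ∀ c y, s ((qqRp j μ).ρ c y) - ι (g (s ((qqRp j μ).ρ c y))) =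
          (coRp j (μ.res j)).ρ c (s y - ι (g (s y))) := by
        intro c y
        rw [← sub_eq_zero]
        refine hzero _ ?_ ?_
        · rw [map_sub, map_sub, hgι', sub_self, zero_sub, hg, map_sub, hgι', sub_self, map_zero,
            neg_zero]
        · rw [map_sub, map_sub, hπι, hπs', hπ, map_sub, hπι, hπs', sub_zero, sub_zero, sub_self]
      refine ⟨⟨ι ∘ₗ a.1 + (s - ι ∘ₗ g ∘ₗ s) ∘ₗ b.1, ?_⟩, ?_⟩
      · intro c t
        show ι (a.1 (τ.ρ c t)) + (s (b.1 (τ.ρ c t)) - ι (g (s (b.1 (τ.ρ c t))))) =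
          (coRp j (μ.res j)).ρ c (ι (a.1 t) + (s (b.1 t) - ι (g (s (b.1 t)))))
        have h1 : a.1 (τ.ρ c t) = μ.ρ c (a.1 t) := a.2 c t
        have h2 : b.1 (τ.ρ c t) = (qqRp j μ).ρ c (b.1 t) := b.2 c t
        rw [h1, h2, hs', hι, map_add]
      · rw [LinearMap.prod_apply]
        refine Prod.ext ?_ ?_
        · apply Subtype.ext
          apply LinearMap.ext
          intro t
          show g (ι (a.1 t) + (s (b.1 t) - ι (g (s (b.1 t))))) = a.1 t
          rw [map_add, map_sub, hgι', hgι', sub_self, add_zero]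
        · apply Subtype.ext
          apply LinearMap.ext
          intro t
          show π (ι (a.1 t) + (s (b.1 t) - ι (g (s (b.1 t))))) = b.1 t
          rw [map_add, map_sub, hπι, hπι, hπs', sub_zero, zero_add]
  have e1 := hd_add τ μ (qqRp j μ) (coRp j (μ.res j)) _ hbij
  have e2 := (LinearEquiv.ofBijective _ (psi_bij j τ (μ.res j))).finrank_eq
  rw [← e1]
  exact e2

end Pool.Agent.PFC.B2.H1
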